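import Pool.Agent.W576.Defs

/-!
# Existence of discrete places of function fields
-/

namespace Pool.Agent.W377.Place

open IsDedekindDomain WithZero Pool.Agent.W576 Polynomial

/-- The place attached to a discrete valuation. -/
theorem place_of_valuation {K : Type} [Field K] [Algebra ℂ K]
    (v : Valuation K (WithZero (Multiplicative ℤ)))
    (hv : ∀ z : ℂ, v (algebraMap ℂ K z) ≤ 1) (t : K) (ht : v t = WithZero.exp (-1 : ℤ))
    (w : K) (hw : v w < 1) (hw0 : w ≠ 0) :
    ∃ (κ : Type) (_ : Field κ) (p : Place K κ), ¬ (w ∈ p.O ∧ w⁻¹ ∈ p.O) := by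
  have ht0 : t ≠ 0 := by
    rintro rfl
    rw [map_zero] at ht
    exact WithZero.zero_ne_coe ht
  refine ⟨IsLocalRing.ResidueField v.valuationSubring, inferInstance,
    { O := v.valuationSubring.toSubring
      t := t
      red := IsLocalRing.residue v.valuationSubring
      alg := hv
      t_mem := ?_
      t_ne := ht0
      t_inv := ?_
      red_ker := ?_
      zpow := ?_ }, ?_⟩
  · show v t ≤ 1
    rw [ht, ← WithZero.exp_zero, WithZero.exp_le_exp]
    norm_num
  · show ¬ v t⁻¹ ≤ 1
    rw [map_inv₀, ht, ← WithZero.exp_neg, ← WithZero.exp_zero, WithZero.exp_le_exp]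
    norm_num
  · intro x
    have h1 : (IsLocalRing.residue v.valuationSubring x = 0) ↔ v (x : K) < 1 := by
      rw [IsLocalRing.residue_eq_zero_iff]
      exact Valuation.mem_maximalIdeal_iff ..
    refine h1.trans ?_
    show _ ↔ v (t⁻¹ * x) ≤ 1
    rw [map_mul, map_inv₀, ht, ← WithZero.exp_neg]
    by_cases hx : v (x : K) = 0
    · simp [hx]
    · obtain ⟨n, hn⟩ : ∃ n : ℤ, v (x : K) = WithZero.exp n := ⟨WithZero.log (v (x : K)), (WithZero.exp_log hx).symm⟩
      rw [hn, ← WithZero.exp_add, ← WithZero.exp_zero, WithZero.exp_le_exp, WithZero.exp_lt_exp]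
      omega
  · intro x hx
    have hvx : v x ≠ 0 := (Valuation.ne_zero_iff _).2 hx
    refine ⟨WithZero.log (v x), ?_⟩
    have : v (t ^ (WithZero.log (v x)) * x) = 1 := by
      rw [map_mul, map_zpow₀, ht, ← WithZero.exp_zsmul]
      conv_lhs => rw [← WithZero.exp_log hvx]
      rw [WithZero.log_exp, ← WithZero.exp_add]
      simp
    constructor
    · show v _ ≤ 1
      rw [this]
    · show v _ ≤ 1
      rw [map_inv₀, this, inv_one]
  · rintro ⟨-, h⟩
    have h : v w⁻¹ ≤ 1 := h
    rw [map_inv₀] at h
    have hvw : v w ≠ 0 := (Valuation.ne_zero_iff _).2 hw0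
    have := (inv_le_one₀ (zero_lt_iff.2 hvw)).1 h
    exact absurd hw (not_lt.2 this)

/-- A transcendence basis argument. -/
theorem exists_intermediate {K : Type} [Field K] [Algebra ℂ K] (w : K)
    (hw : w ∉ Set.range (algebraMap ℂ K)) :
    ∃ (s : Set K) (k : IntermediateField ℂ K), Transcendental k w ∧
      Algebra.IsAlgebraic (Algebra.adjoin ℂ s) K ∧ ∀ y ∈ s, y = w ∨ y ∈ k := by
  have hwt : Transcendental ℂ w := by
    intro h
    apply hw
    have h1 : IsIntegral ℂ w := h.isIntegral
    have h2 : Algebra.IsAlgebraic ℂ (IntermediateField.adjoin ℂ {w}) :=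
      IntermediateField.isAlgebraic_adjoin_simple h1
    have h3 := IntermediateField.eq_bot_of_isAlgClosed_of_isAlgebraic
      (IntermediateField.adjoin ℂ {w})
    have h4 : w ∈ IntermediateField.adjoin ℂ {w} :=
      IntermediateField.mem_adjoin_simple_self ℂ w
    rw [h3] at h4
    exact IntermediateField.mem_bot.1 h4
  have hind : AlgebraicIndepOn ℂ id ({w} : Set K) :=
    (algebraicIndependent_singleton_iff (ι := ({w} : Set K)) (⟨w, rfl⟩ : ({w} : Set K))).2 hwt
  obtain ⟨s, hs, hsb⟩ := exists_isTranscendenceBasis_superset hind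
  have hws : w ∈ s := hs rfl
  refine ⟨s, IntermediateField.adjoin ℂ (s \ {w}), ?_, ?_, ?_⟩
  · rw [IntermediateField.transcendental_adjoin_iff]
    have h := hsb.1.transcendental_adjoin (s := {i | i ≠ ⟨w, hws⟩}) (i := ⟨w, hws⟩) (by simp)
    have h2 : ((↑) : s → K) '' {i | i ≠ ⟨w, hws⟩} = s \ {w} := by
      ext y
      simp only [Set.mem_image, Set.mem_ofPred_eq, ne_eq, Subtype.exists, Set.mem_sdiff,
        Set.mem_singleton_iff]
      constructor
      · rintro ⟨a, ha, h, rfl⟩
        exact ⟨ha, fun hh => h (Subtype.ext hh)⟩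
      · rintro ⟨ha, h⟩
        exact ⟨y, ha, fun hh => h (congrArg Subtype.val hh), rfl⟩
    rw [h2] at h
    exact h
  · have := hsb.isAlgebraic
    rwa [Subtype.range_coe] at this
  · intro y hy
    by_cases h : y = w
    · exact Or.inl h
    · exact Or.inr (IntermediateField.subset_adjoin _ _ ⟨hy, h⟩)

theorem exists_place {K : Type} [Field K] [Algebra ℂ K]
    (hfg : (⊤ : IntermediateField ℂ K).FG) (w : K) (hw : w ∉ Set.range (algebraMap ℂ K)) :
    ∃ (κ : Type) (_ : Field κ) (p : Place K κ), ¬ (w ∈ p.O ∧ w⁻¹ ∈ p.O) := by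
  obtain ⟨s, k, hk, halg, hs⟩ := exists_intermediate w hw
  have hinj : Function.Injective (aeval (R := k) w) := transcendental_iff_injective.1 hk
  let _ : Algebra k[X] K := (aeval (R := k) w).toRingHom.toAlgebra
  have hX : algebraMap k[X] K X = w := by
    show aeval w X = w
    simp
  have : FaithfulSMul k[X] K := (faithfulSMul_iff_algebraMap_injective _ _).2 hinj
  have : IsScalarTower k k[X] K := IsScalarTower.of_algebraMap_eq (fun x => by
    show _ = aeval w (C x)
    simp)
  have : IsScalarTower ℂ k[X] K := IsScalarTower.of_algebraMap_eq (fun x => by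
    rw [IsScalarTower.algebraMap_apply ℂ k K, IsScalarTower.algebraMap_apply k k[X] K]
    rfl)
  let _ : Algebra (FractionRing k[X]) K := FractionRing.liftAlgebra k[X] K
  have : IsScalarTower k[X] (FractionRing k[X]) K := inferInstance
  have : Algebra.EssFiniteType ℂ K := IntermediateField.fg_top_iff.1 hfg
  have : Algebra.EssFiniteType k[X] K := Algebra.EssFiniteType.of_comp ℂ k[X] K
  have : Algebra.EssFiniteType (FractionRing k[X]) K :=
    Algebra.EssFiniteType.of_comp k[X] (FractionRing k[X]) K
  have : Algebra.IsAlgebraic k[X] K := by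
    have hle : ∀ x ∈ Algebra.adjoin ℂ s, x ∈ (IsScalarTower.toAlgHom ℂ k[X] K).range := by
      intro x hx
      refine Algebra.adjoin_le (S := (IsScalarTower.toAlgHom ℂ k[X] K).range) ?_ hx
      intro y hy
      rcases hs y hy with rfl | hy
      · exact ⟨X, hX⟩
      · refine ⟨C ⟨y, hy⟩, ?_⟩
        show aeval w (C (⟨y, hy⟩ : k)) = y
        simp
    let e := AlgEquiv.ofInjective (IsScalarTower.toAlgHom ℂ k[X] K) hinj
    let f : Algebra.adjoin ℂ s →ₐ[ℂ] k[X] :=
      e.symm.toAlgHom.comp (Subalgebra.inclusion hle)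
    have hf : ∀ x : Algebra.adjoin ℂ s, algebraMap k[X] K (f x) = x := by
      intro x
      show (e (e.symm _)).1 = _
      rw [AlgEquiv.apply_symm_apply]
      rfl
    refine Algebra.IsAlgebraic.ringHom_of_comp_eq (R := Algebra.adjoin ℂ s) (A := K) (S := k[X])
      (B := K) f (RingHom.id K) ?_ Function.surjective_id ?_
    · intro a b hab
      have := congrArg (algebraMap k[X] K) hab
      rw [hf, hf] at this
      exact Subtype.ext this
    · ext x
      exact hf x
  have : Algebra.IsAlgebraic (FractionRing k[X]) K :=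
    (IsFractionRing.comap_isAlgebraic_iff (A := k[X])).1 this
  have : FiniteDimensional (FractionRing k[X]) K := Algebra.finite_of_essFiniteType_of_isAlgebraic
  have : CharZero K := charZero_of_injective_algebraMap (algebraMap ℂ K).injective
  have : CharZero k := charZero_of_injective_algebraMap (algebraMap ℂ k).injective
  have : CharZero k[X] := inferInstance
  have : CharZero (FractionRing k[X]) := inferInstance
  have : Algebra.IsSeparable (FractionRing k[X]) K := inferInstance
  have : IsDedekindDomain (integralClosure k[X] K) := inferInstance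
  have : IsFractionRing (integralClosure k[X] K) K :=
    integralClosure.isFractionRing_of_finite_extension (FractionRing k[X]) K
  have hw0 : w ≠ 0 := by
    rintro rfl
    exact hw ⟨0, map_zero _⟩
  have hXne : algebraMap k[X] (integralClosure k[X] K) X ≠ 0 := by
    intro h
    apply hw0
    rw [← hX, IsScalarTower.algebraMap_apply k[X] (integralClosure k[X] K) K, h, map_zero]
  have hnu : ¬ IsUnit (algebraMap k[X] (integralClosure k[X] K) X) := by
    intro h
    have : IsUnit (X : k[X]) := isUnit_of_map_unit (algebraMap k[X] (integralClosure k[X] K)) _ h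
    exact Polynomial.not_isUnit_X this
  obtain ⟨m, hm, hXm⟩ := exists_max_ideal_of_mem_nonunits hnu
  let v : HeightOneSpectrum (integralClosure k[X] K) := ⟨m, hm.isPrime, by
    rintro rfl
    exact hXne (by simpa using hXm)⟩
  obtain ⟨t, ht⟩ := v.valuation_exists_uniformizer K
  refine place_of_valuation (v.valuation K) ?_ t ht w ?_ hw0
  · intro z
    have : algebraMap ℂ K z = algebraMap (integralClosure k[X] K) K
        (algebraMap k[X] (integralClosure k[X] K) (algebraMap ℂ k[X] z)) := by
      rw [← IsScalarTower.algebraMap_apply, ← IsScalarTower.algebraMap_apply]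
    rw [this]
    exact v.valuation_le_one _
  · have : w = algebraMap (integralClosure k[X] K) K
        (algebraMap k[X] (integralClosure k[X] K) X) := by
      rw [← IsScalarTower.algebraMap_apply, hX]
    rw [this, v.valuation_lt_one_iff_mem]
    exact hXm

end Pool.Agent.W377.Place
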