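import Mathlib
import Pool.Agent.W550.LG.StmV

/-!
# Laugwitz' problem, Part V: if there is no clean short triple then there are many more swings
-/

set_option autoImplicit false

open Set

namespace Pool.Agent.W377.LG

open Pool.Agent.W550.LG

/-- an alternating sequence of `n` swings of size at least `d` from `u` to `v`, the first one
upward -/
def Sw (L : ℝ → ℝ) (d : ℝ) (n : ℕ) (u v : ℝ) : Prop :=
  ∃ p : ℕ → ℝ, p 0 = u ∧ p n = v ∧ (∀ i < n, p i < p (i + 1)) ∧
    ∀ i < n, (Even i → L (p i) + d ≤ L (p (i + 1))) ∧ (Odd i → L (p (i + 1)) + d ≤ L (p i))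

theorem Sw.concat {L : ℝ → ℝ} {d : ℝ} {n n' : ℕ} {u v u' v' : ℝ} (h : Sw L d n u v)
    (h' : Sw L d n' u' v') (hn : Odd n) (hv : v < u') (hL : L u' + d ≤ L v) :
    Sw L d (n + 1 + n') u v' := by
  obtain ⟨p, p0, pn, h1, h2⟩ := h
  obtain ⟨q, q0, qn, h3, h4⟩ := h'
  refine ⟨fun i => if i ≤ n then p i else q (i - (n + 1)), ?_, ?_, ?_, ?_⟩
  · simp [p0]
  · change (if n + 1 + n' ≤ n then p (n + 1 + n') else q (n + 1 + n' - (n + 1))) = v'
    rw [if_neg (by omega), show n + 1 + n' - (n + 1) = n' by omega, qn]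
  · intro i hi
    rcases lt_trichotomy i n with hin | hin | hin
    · simp only [if_pos hin.le, if_pos (show i + 1 ≤ n by omega)]
      exact h1 i hin
    · subst hin
      simp only [le_refl, if_true, if_neg (show ¬ i + 1 ≤ i by omega)]
      rw [show i + 1 - (i + 1) = 0 by omega, q0, pn]
      exact hv
    · simp only [if_neg (show ¬ i ≤ n by omega), if_neg (show ¬ i + 1 ≤ n by omega)]
      rw [show i + 1 - (n + 1) = (i - (n + 1)) + 1 by omega]
      exact h3 _ (by omega)
  · intro i hi
    rcases lt_trichotomy i n with hin | hin | hin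
    · simp only [if_pos hin.le, if_pos (show i + 1 ≤ n by omega)]
      exact h2 i hin
    · subst hin
      simp only [le_refl, if_true, if_neg (show ¬ i + 1 ≤ i by omega)]
      rw [show i + 1 - (i + 1) = 0 by omega, q0, pn]
      refine ⟨fun he => absurd hn (by rwa [Nat.not_odd_iff_even]), fun _ => hL⟩
    · simp only [if_neg (show ¬ i ≤ n by omega), if_neg (show ¬ i + 1 ≤ n by omega)]
      rw [show i + 1 - (n + 1) = (i - (n + 1)) + 1 by omega]
      have h5 := h4 (i - (n + 1)) (by omega)
      obtain ⟨k, rfl⟩ : ∃ k, i = k + (n + 1) := ⟨i - (n + 1), by omega⟩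
      rw [Nat.add_sub_cancel] at h5 ⊢
      have hev : Even (n + 1) := hn.add_one
      refine ⟨fun he => h5.1 ?_, fun ho => h5.2 ?_⟩
      · rw [Nat.even_add] at he
        exact he.2 hev
      · rw [Nat.odd_add] at ho
        exact ho.2 hev

theorem sw3 {L : ℝ → ℝ} {d q0 q1 q2 q3 : ℝ} (h0 : q0 < q1) (h1 : q1 < q2) (h2 : q2 < q3)
    (l0 : L q0 + d ≤ L q1) (l1 : L q2 + d ≤ L q1) (l2 : L q2 + d ≤ L q3) : Sw L d 3 q0 q3 := by
  refine ⟨fun i => match i with | 0 => q0 | 1 => q1 | 2 => q2 | _ => q3, rfl, rfl, ?_, ?_⟩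
  · intro i hi
    interval_cases i
    · exact h0
    · exact h1
    · exact h2
  · intro i hi
    interval_cases i
    · exact ⟨fun _ => l0, fun h => absurd h (by decide)⟩
    · exact ⟨fun h => absurd h (by decide), fun _ => l1⟩
    · exact ⟨fun _ => l2, fun h => absurd h (by decide)⟩

theorem sw5 {L : ℝ → ℝ} {d q0 q1 q2 q3 q4 q5 : ℝ} (h0 : q0 < q1) (h1 : q1 < q2) (h2 : q2 < q3)
    (h3 : q3 < q4) (h4 : q4 < q5)
    (l0 : L q0 + d ≤ L q1) (l1 : L q2 + d ≤ L q1) (l2 : L q2 + d ≤ L q3)
    (l3 : L q4 + d ≤ L q3) (l4 : L q4 + d ≤ L q5) : Sw L d 5 q0 q5 := by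
  refine ⟨fun i => match i with | 0 => q0 | 1 => q1 | 2 => q2 | 3 => q3 | 4 => q4 | _ => q5,
    rfl, rfl, ?_, ?_⟩
  · intro i hi
    interval_cases i
    · exact h0
    · exact h1
    · exact h2
    · exact h3
    · exact h4
  · intro i hi
    interval_cases i
    · exact ⟨fun _ => l0, fun h => absurd h (by decide)⟩
    · exact ⟨fun h => absurd h (by decide), fun _ => l1⟩
    · exact ⟨fun _ => l2, fun h => absurd h (by decide)⟩
    · exact ⟨fun h => absurd h (by decide), fun _ => l3⟩
    · exact ⟨fun _ => l4, fun h => absurd h (by decide)⟩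

/-- a block which is short can be replaced by five swings -/
theorem block (hE : S_EXTR) {L : ℝ → ℝ} {h d p q r u : ℝ} (hL : Continuous L) (h0 : 0 < h)
    (hd : 0 < d) (hdh : d ≤ h) (h1 : p < q) (h2 : q < r) (h3 : r < u) (l1 : L p + h ≤ L q)
    (l2 : L r + h ≤ L q) (l3 : L r + h ≤ L u)
    (hT : ∀ al b a2 om, p ≤ al → om ≤ u → ¬ Trip L h d al b a2 om) :
    ∃ al om, p ≤ al ∧ om ≤ u ∧ L al ≤ L p ∧ L u ≤ L om ∧ Sw L d 5 al om := by
  obtain ⟨al, b, a2, om, e1, e2, e3, e4, e5, e6, e7, e8, e9, e10, e11, e12, e13⟩ :=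
    hE L h p q r u hL h0 h1 h2 h3 l1 l2 l3
  refine ⟨al, om, e1, e5, e6, e7, ?_⟩
  have hne : ∀ s s', L s < L s' → s ≠ s' := by
    rintro s s' hlt rfl
    exact lt_irrefl _ hlt
  by_contra hcon
  refine hT al b a2 om e1 e5 ⟨e2, e3, e4, e8, e9, e10, ?_, ?_, ?_⟩
  · intro r s hr hrs hs
    by_contra hlt
    push Not at hlt
    apply hcon
    have a1 := (e11 s ⟨hr.trans hrs, hs⟩).1
    have a2' := (e11 r ⟨hr, hrs.trans hs⟩).2
    refine sw5 (q1 := r) (q2 := s) (q3 := b) (q4 := a2) (lt_of_le_of_ne hr (hne _ _ (by linarith)))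
      (lt_of_le_of_ne hrs (hne _ _ (by linarith)).symm)
      (lt_of_le_of_ne hs (hne _ _ (by linarith))) e3 e4 (by linarith) (by linarith)
      (by linarith) (by linarith) (by linarith)
  · intro r s hr hrs hs
    by_contra hlt
    push Not at hlt
    apply hcon
    have a1 := (e12 s ⟨hr.trans hrs, hs⟩).2
    have a2' := (e12 r ⟨hr, hrs.trans hs⟩).1
    refine sw5 (q1 := b) (q2 := r) (q3 := s) (q4 := a2) e2
      (lt_of_le_of_ne hr (hne _ _ (by linarith)).symm)
      (lt_of_le_of_ne hrs (hne _ _ (by linarith)))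
      (lt_of_le_of_ne hs (hne _ _ (by linarith)).symm) e4 (by linarith) (by linarith)
      (by linarith) (by linarith) (by linarith)
  · intro r s hr hrs hs
    by_contra hlt
    push Not at hlt
    apply hcon
    have a1 := (e13 s ⟨hr.trans hrs, hs⟩).1
    have a2' := (e13 r ⟨hr, hrs.trans hs⟩).2
    refine sw5 (q1 := b) (q2 := a2) (q3 := r) (q4 := s) e2 e3
      (lt_of_le_of_ne hr (hne _ _ (by linarith)))
      (lt_of_le_of_ne hrs (hne _ _ (by linarith)).symm)
      (lt_of_le_of_ne hs (hne _ _ (by linarith))) (by linarith) (by linarith)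
      (by linarith) (by linarith) (by linarith)

theorem blk : S_EXTR → S_BLK := by
  classical
  intro hE L x y h d n hL hxy h0 hd hdh hn hAlt hT
  obtain ⟨p, hp1, hp2, hp3⟩ := hAlt
  have hn0 : (0 : ℝ) < n := by exact_mod_cast (show 0 < n by omega)
  set δ : ℝ := 8 * (y - x) / n with hδ
  set m := n / 4 with hm
  let short : ℕ → Prop := fun j => p (4 * j + 3) - p (4 * j) ≤ δ
  let S : ℕ → ℕ := fun j => ((Finset.range j).filter short).card
  have hS : ∀ j, S (j + 1) = S j + if short j then 1 else 0 := by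
    intro j
    simp only [S, Finset.range_add_one, Finset.filter_insert]
    split_ifs with hs
    · rw [Finset.card_insert_of_notMem (by simp)]
    · rfl
  have hmono : ∀ i j, i ≤ j → j ≤ n → p i ≤ p j := by
    intro i j hij
    induction j, hij using Nat.le_induction with
    | base => intro _; exact le_rfl
    | succ j hij ih => intro hj; exact (ih (by omega)).trans (hp1 j (by omega)).le
  -- one block
  have hblock : ∀ j, j < m → ∃ u v, p (4 * j) ≤ u ∧ v ≤ p (4 * j + 3) ∧ L u ≤ L (p (4 * j)) ∧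
      L (p (4 * j + 3)) ≤ L v ∧ Sw L d (3 + 2 * if short j then 1 else 0) u v := by
    intro j hj
    have hj4 : 4 * j + 4 ≤ n := by omega
    have q1 := hp1 (4 * j) (by omega)
    have q2 := hp1 (4 * j + 1) (by omega)
    have q3 := hp1 (4 * j + 2) (by omega)
    have ev : Even (4 * j) := ⟨2 * j, by ring⟩
    have r1 := (hp3 (4 * j) (by omega)).1 ev
    have r2 := (hp3 (4 * j + 1) (by omega)).2 ev.add_one
    have r3 := (hp3 (4 * j + 2) (by omega)).1 (ev.add_one.add_one)
    by_cases hs : short j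
    · rw [if_pos hs]
      obtain ⟨al, om, e1, e2, e3, e4, e5⟩ := block hE hL h0 hd hdh q1 q2 q3 r1 r2 r3 (by
        intro al b a2 om hal hom hTrip
        refine hT al b a2 om ((hp2 _ (by omega)).1.trans hal) (hom.trans (hp2 _ (by omega)).2) ?_
          hTrip
        have : p (4 * j + 3) - p (4 * j) ≤ δ := hs
        linarith)
      exact ⟨al, om, e1, e2, e3, e4, e5⟩
    · rw [if_neg hs]
      exact ⟨p (4 * j), p (4 * j + 3), le_rfl, le_rfl, le_rfl, le_rfl,
        sw3 q1 q2 q3 (by linarith) (by linarith) (by linarith)⟩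
  -- all blocks
  have hall : ∀ j, j < m → ∃ u v, p 0 ≤ u ∧ v ≤ p (4 * j + 3) ∧ L (p (4 * j + 3)) ≤ L v ∧
      Sw L d (4 * j + 3 + 2 * S (j + 1)) u v := by
    intro j
    induction j with
    | zero =>
      intro hj
      obtain ⟨u, v, e1, e2, e3, e4, e5⟩ := hblock 0 hj
      refine ⟨u, v, e1, e2, e4, ?_⟩
      rw [hS]
      simpa [S] using e5
    | succ j ih =>
      intro hj
      obtain ⟨u, v, e1, e2, e3, e4⟩ := ih (by omega)
      obtain ⟨u', v', f1, f2, f3, f4, f5⟩ := hblock (j + 1) hj
      refine ⟨u, v', e1, f2, f4, ?_⟩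
      have g1 := hp1 (4 * j + 3) (by omega)
      have g2 := (hp3 (4 * j + 3) (by omega)).2 ⟨2 * j + 1, by ring⟩
      have g3 : 4 * (j + 1) = 4 * j + 3 + 1 := by ring
      rw [g3] at f1 f3
      have h5 := e4.concat f5 ⟨2 * j + 1 + S (j + 1), by ring⟩ (by linarith) (by linarith)
      rw [hS (j + 1)]
      have h6 : 4 * j + 3 + 2 * S (j + 1) + 1 + (3 + 2 * if short (j + 1) then 1 else 0) =
          4 * (j + 1) + 3 + 2 * (S (j + 1) + if short (j + 1) then 1 else 0) := by ring
      rw [← h6]
      exact h5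
  -- the number of short blocks
  have hcount : n / 8 ≤ 2 * S m := by
    set Lg := (Finset.range m).filter (fun j => ¬ short j) with hLg
    have h1 : S m + Lg.card = m := by
      have := Finset.card_filter_add_card_filter_not (s := Finset.range m) short
      rw [Finset.card_range] at this
      exact this
    have h2 : (Lg.card : ℝ) * δ ≤ y - x := by
      have h3 : ∀ k, k ≤ m → ∑ j ∈ Finset.range k, (p (4 * j + 3) - p (4 * j)) ≤ p (4 * k) - p 0 := by
        intro k
        induction k with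
        | zero => intro _; simp
        | succ k ih =>
          intro hk
          rw [Finset.sum_range_succ]
          have h4 := ih (by omega)
          have h5 := hp1 (4 * k + 3) (by omega)
          have h6 : 4 * (k + 1) = 4 * k + 3 + 1 := by ring
          rw [h6]
          linarith
      have h7 : ∑ j ∈ Lg, δ ≤ ∑ j ∈ Finset.range m, (p (4 * j + 3) - p (4 * j)) := by
        calc ∑ j ∈ Lg, δ ≤ ∑ j ∈ Lg, (p (4 * j + 3) - p (4 * j)) := by
              refine Finset.sum_le_sum fun j hj => ?_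
              rw [hLg, Finset.mem_filter] at hj
              have := hj.2
              simp only [short, not_le] at this
              exact this.le
          _ ≤ _ := by
              refine Finset.sum_le_sum_of_subset_of_nonneg (Finset.filter_subset _ _) ?_
              intro j hj _
              rw [Finset.mem_range] at hj
              exact sub_nonneg.2 (hmono _ _ (by omega) (by omega))
      rw [Finset.sum_const, nsmul_eq_mul] at h7
      have h8 := h3 m le_rfl
      have h9 := (hp2 (4 * m) (by omega)).2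
      have h10 := (hp2 0 (by omega)).1
      linarith
    have h3 : (8 * Lg.card : ℝ) ≤ n := by
      have h4 : (Lg.card : ℝ) * (8 * (y - x)) ≤ (y - x) * n := by
        rw [hδ, ← mul_div_assoc, div_le_iff₀ hn0] at h2
        exact h2
      have h5 : 0 < y - x := sub_pos.2 hxy
      have h6 : (8 * Lg.card : ℝ) * (y - x) ≤ n * (y - x) := by linarith
      exact le_of_mul_le_mul_right h6 h5
    have h4 : 8 * Lg.card ≤ n := by exact_mod_cast h3
    omega
  -- the end
  have hm1 : m - 1 < m := by omega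
  obtain ⟨u, v, e1, e2, e3, e4⟩ := hall (m - 1) hm1
  have hm4 : 4 * (m - 1) + 3 + 1 = 4 * m := by omega
  have hm5 : m - 1 + 1 = m := by omega
  rw [hm5] at e4
  have htail : Sw L d (n - 4 * m) (p (4 * m)) (p n) := by
    refine ⟨fun i => p (4 * m + i), rfl, by
      change p (4 * m + (n - 4 * m)) = p n
      rw [show 4 * m + (n - 4 * m) = n by omega],
      fun i hi => hp1 _ (by omega), fun i hi => ?_⟩
    have h1 := hp3 (4 * m + i) (by omega)
    have h2 : Even (4 * m) := ⟨2 * m, by ring⟩
    refine ⟨fun he => ?_, fun ho => ?_⟩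
    · have := h1.1 (h2.add he)
      change L (p (4 * m + i)) + d ≤ L (p (4 * m + i + 1))
      linarith
    · have := h1.2 (h2.add_odd ho)
      change L (p (4 * m + i + 1)) + d ≤ L (p (4 * m + i))
      linarith
  have g1 := hp1 (4 * (m - 1) + 3) (by omega)
  have g2 := (hp3 (4 * (m - 1) + 3) (by omega)).2 ⟨2 * (m - 1) + 1, by ring⟩
  rw [hm4] at g1 g2
  have hfin := e4.concat htail ⟨2 * (m - 1) + 1 + S m, by ring⟩ (by linarith) (by linarith)
  obtain ⟨q, q0, qn, h1, h2⟩ := hfin
  have hN : n + n / 8 ≤ 4 * (m - 1) + 3 + 2 * S m + 1 + (n - 4 * m) := by omega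
  set N := 4 * (m - 1) + 3 + 2 * S m + 1 + (n - 4 * m) with hNdef
  have hqm : ∀ i j, i ≤ j → j ≤ N → q i ≤ q j := by
    intro i j hij
    induction j, hij using Nat.le_induction with
    | base => intro _; exact le_rfl
    | succ j hij ih => intro hj; exact (ih (by omega)).trans (h1 j (by omega)).le
  refine ⟨q, fun i hi => h1 i (by omega), fun i hi => ⟨?_, ?_⟩, fun i hi => h2 i (by omega)⟩
  · have := hqm 0 i (by omega) (by omega)
    rw [q0] at this
    exact ((hp2 0 (by omega)).1.trans e1).trans this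
  · have := hqm i N (by omega) le_rfl
    rw [qn] at this
    exact this.trans (hp2 n le_rfl).2

end Pool.Agent.W377.LG
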