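import Pool.Agent.W576.Defs2

/-!
# Lattices on both sides
-/

namespace Pool.Agent.W377.Side

open Pool.Agent.W576

variable {K : Type} [Field K] [Algebra ℂ K] {κ : Type} [Field κ] (p : Place K κ)

theorem zpow_nonneg_mem {m : ℤ} (hm : 0 ≤ m) : p.t ^ m ∈ p.O := by
  obtain ⟨n, rfl⟩ := Int.eq_ofNat_of_zero_le hm
  rw [zpow_natCast]
  exact pow_mem p.t_mem n

/-- an element of `O` outside of `tO` is a unit -/
theorem inv_mem {x : K} (hx : x ∈ p.O) (h : p.t⁻¹ * x ∉ p.O) : x⁻¹ ∈ p.O := by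
  have hx0 : x ≠ 0 := by
    rintro rfl
    exact h (by rw [mul_zero]; exact p.O.zero_mem)
  obtain ⟨m, hm, hm'⟩ := p.zpow x hx0
  have ht := p.t_ne
  rcases lt_trichotomy m 0 with hlt | rfl | hgt
  · exfalso
    apply h
    have : p.t⁻¹ * x = p.t ^ (-m - 1) * (p.t ^ m * x) := by
      rw [← mul_assoc, ← zpow_add₀ ht]
      rw [show -m - 1 + m = -1 by ring, zpow_neg_one]
    rw [this]
    exact mul_mem (zpow_nonneg_mem p (by omega)) hm
  · simpa using hm'
  · exfalso
    apply p.t_inv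
    have : p.t⁻¹ = p.t ^ (m - 1) * (x * (p.t ^ m * x)⁻¹) := by
      rw [mul_inv, mul_comm (p.t ^ m)⁻¹, ← mul_assoc x, mul_inv_cancel₀ hx0, one_mul,
        ← zpow_neg, ← zpow_add₀ ht, show m - 1 + -m = -1 by ring, zpow_neg_one]
    rw [this]
    exact mul_mem (zpow_nonneg_mem p (by omega)) (mul_mem hx hm')

theorem exists_pow (x : K) : ∃ n : ℕ, p.t ^ n * x ∈ p.O := by
  by_cases hx0 : x = 0
  · exact ⟨0, by rw [hx0, mul_zero]; exact p.O.zero_mem⟩
  obtain ⟨m, hm, hm'⟩ := p.zpow x hx0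
  have ht := p.t_ne
  rcases le_total m 0 with hle | hge
  · refine ⟨0, ?_⟩
    have : p.t ^ 0 * x = p.t ^ (-m) * (p.t ^ m * x) := by
      rw [← mul_assoc, ← zpow_add₀ ht]
      simp
    rw [this]
    exact mul_mem (zpow_nonneg_mem p (by omega)) hm
  · obtain ⟨n, rfl⟩ := Int.eq_ofNat_of_zero_le hge
    refine ⟨n, ?_⟩
    rwa [zpow_natCast] at hm

theorem exists_pow_all {ι : Type} [Fintype ι] (x : ι → K) :
    ∃ n : ℕ, ∀ i, p.t ^ n * x i ∈ p.O := by
  choose n hn using fun i => exists_pow p (x i)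
  refine ⟨∑ i, n i, fun i => ?_⟩
  have : p.t ^ (∑ j, n j) * x i = p.t ^ ((∑ j, n j) - n i) * (p.t ^ n i * x i) := by
    rw [← mul_assoc, ← pow_add, Nat.sub_add_cancel
      (Finset.single_le_sum (fun _ _ => Nat.zero_le _) (Finset.mem_univ i))]
  rw [this]
  exact mul_mem (pow_mem p.t_mem _) (hn i)

theorem half_mem {x : K} (h : 2 * x ∈ p.O) : x ∈ p.O := by
  have h2 : algebraMap ℂ K (1 / 2) ∈ p.O := p.alg _
  have h3 := mul_mem h2 h
  have h4 : algebraMap ℂ K (1 / 2) * (2 * x) = x := by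
    rw [← mul_assoc]
    have : algebraMap ℂ K (1 / 2) * 2 = 1 := by
      rw [← map_ofNat (algebraMap ℂ K) 2, ← map_mul]
      norm_num
    rw [this, one_mul]
  rwa [h4] at h3

/-- linear algebra in the residue field -/
theorem residue_contra {r : ℕ} (y : Fin (r + 1) → κ) (u : Fin r → Fin (r + 1) → κ)
    (G : Matrix (Fin r) (Fin r) κ) (hG : ∀ i j, lor (u i) (u j) = G i j) (hdet : G.det ≠ 0)
    (hyu : ∀ i, lor y (u i) = 0) (hyy : lor y y = 0) : y = 0 := by
  by_contra hy
  have hcomm : ∀ a b : Fin (r + 1) → κ, lor a b = lor b a := by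
    intro a b
    unfold lor
    exact Finset.sum_congr rfl fun i _ => by ring
  let U : Matrix (Fin (r + 1)) (Fin (r + 1)) κ := Matrix.of (Fin.cons y u)
  have hU : U.det ≠ 0 := by
    intro h0
    obtain ⟨v, hv, hvU⟩ := Matrix.exists_vecMul_eq_zero_iff.2 h0
    have hv' : ∀ k, v 0 * y k + ∑ i : Fin r, v i.succ * u i k = 0 := by
      intro k
      have := congrFun hvU k
      rw [Matrix.vecMul, dotProduct, Fin.sum_univ_succ] at this
      exact this
    have h1 : (fun i : Fin r => v i.succ) = 0 := by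
      apply Matrix.eq_zero_of_vecMul_eq_zero hdet
      ext j
      rw [Matrix.vecMul, dotProduct]
      show ∑ i : Fin r, v i.succ * G i j = 0
      have h2 : lor (fun k => v 0 * y k + ∑ i : Fin r, v i.succ * u i k) (u j) = 0 := by
        unfold lor
        exact Finset.sum_eq_zero fun k _ => by
          show eta k * ((v 0 * y k + ∑ i : Fin r, v i.succ * u i k) * u j k) = 0
          rw [hv' k]; ring
      have h3 : lor (fun k => v 0 * y k + ∑ i : Fin r, v i.succ * u i k) (u j) =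
          v 0 * lor y (u j) + ∑ i : Fin r, v i.succ * lor (u i) (u j) := by
        unfold lor
        simp only [Finset.mul_sum, add_mul, mul_add, Finset.sum_add_distrib, Finset.sum_mul]
        congr 1
        · exact Finset.sum_congr rfl fun i _ => by ring
        · rw [Finset.sum_comm]
          exact Finset.sum_congr rfl fun i _ => Finset.sum_congr rfl fun k _ => by ring
      rw [h3, hyu, mul_zero, zero_add] at h2
      rw [← h2]
      exact Finset.sum_congr rfl fun i _ => by rw [hG]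
    apply hv
    have h4 : v 0 = 0 := by
      by_contra hv0
      apply hy
      ext k
      have := hv' k
      rw [Finset.sum_eq_zero (fun i _ => by rw [congrFun h1 i]; simp), add_zero] at this
      exact (mul_eq_zero.1 this).resolve_left hv0
    ext i
    refine Fin.cases h4 (fun i => congrFun h1 i) i
  have h5 : (fun j : Fin (r + 1) => eta j * y j) = (0 : Fin (r + 1) → κ) := by
    apply Matrix.eq_zero_of_mulVec_eq_zero hU
    ext i
    rw [Matrix.mulVec, dotProduct]
    refine Fin.cases ?_ (fun i => ?_) i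
    · rw [Pi.zero_apply, ← hyy]
      unfold lor
      exact Finset.sum_congr rfl fun k _ => by
        show y k * (eta k * y k) = _
        ring
    · rw [Pi.zero_apply, ← hyu i]
      unfold lor
      exact Finset.sum_congr rfl fun k _ => by
        show u i k * (eta k * y k) = _
        ring
  apply hy
  ext j
  have := congrFun h5 j
  simp only [eta, Pi.zero_apply] at this
  split_ifs at this <;> simpa using this

theorem L_zero {r : ℕ} (x : SI r → K) : p.L 0 x ↔
    (∀ i, x (.inl (.inl i)) ∈ p.O) ∧ x (.inl (.inr ())) ∈ p.O ∧ x (.inr ()) ∈ p.O := by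
  unfold Place.L
  simp

theorem L_one {r : ℕ} (x : SI r → K) : p.L 1 x ↔
    (∀ i, x (.inl (.inl i)) ∈ p.O) ∧ p.t * x (.inl (.inr ())) ∈ p.O ∧
      p.t⁻¹ * x (.inr ()) ∈ p.O := by
  unfold Place.L
  simp

theorem sform_smul {r : ℕ} (c : K) (x y : SI r → K) : sform (c • x) y = c * sform x y := by
  unfold sform
  simp only [Pi.smul_apply, smul_eq_mul, mul_add, Finset.mul_sum]
  congr 1
  · exact Finset.sum_congr rfl fun i _ => by ring
  · ring

theorem sform_comm {r : ℕ} (x y : SI r → K) : sform x y = sform y x := by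
  unfold sform
  congr 1
  · exact Finset.sum_congr rfl fun i _ => by ring
  · ring

theorem smul_mem' {r : ℕ} {L : Set (SI r → K)} (hSD : SelfDual p L) {c : K} (hc : c ∈ p.O)
    {x : SI r → K} (hx : x ∈ L) : c • x ∈ L := by
  rw [hSD]
  intro y hy
  rw [sform_smul]
  exact mul_mem hc ((hSD x).1 hx y hy)

theorem eta_mem {d : ℕ} (i : Fin d) : (eta i : K) ∈ p.O := by
  unfold eta
  split_ifs
  · exact neg_mem p.O.one_mem
  · exact p.O.one_mem

theorem cross_mem {r : ℕ} {L : Set (SI r → K)} (hSD : SelfDual p L) {x y : SI r → K}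
    (hx : x ∈ L) (hy : y ∈ L) (hxi : ∀ i, x (.inl (.inl i)) ∈ p.O)
    (hyi : ∀ i, y (.inl (.inl i)) ∈ p.O) :
    x (.inl (.inr ())) * y (.inr ()) + x (.inr ()) * y (.inl (.inr ())) ∈ p.O := by
  have h := (hSD x).1 hx y hy
  have h1 : ∑ i : Fin (r + 1), (eta i : K) * (x (.inl (.inl i)) * y (.inl (.inl i))) ∈ p.O :=
    sum_mem fun i _ => mul_mem (eta_mem p i) (mul_mem (hxi i) (hyi i))
  have h2 := sub_mem h h1
  apply half_mem p
  unfold sform at h2
  rwa [add_sub_cancel_left] at h2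

theorem side_const {r : ℕ} (L L' : Set (SI r → K)) (hSD : SelfDual p L) (hSD' : SelfDual p L')
    (u : Fin r → SI r → K) (hu0 : ∀ i, p.L 0 (u i)) (hu1 : ∀ i, p.L 1 (u i))
    (G : Matrix (Fin r) (Fin r) ℝ) (hG : ∀ i j, sform (u i) (u j) = algebraMap ℂ K (G i j : ℂ))
    (hdet : G.det ≠ 0) (b : SI r → K) (hb : ∀ i, sform b (u i) = 0) (β : ℝ)
    (hbb : sform b b = algebraMap ℂ K (β : ℂ)) (hbL : b ∈ L) (hbL' : b ∈ L')
    (hL : ∀ x ∈ L, p.Ms x → p.L 1 x) (hL' : ¬ ∀ x ∈ L', p.Ms x → p.L 1 x) :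
    p.L 0 b ∧ p.L 1 b := by
  have ht := p.t_ne
  -- dichotomy
  have hL0 : ∀ x ∈ L', p.Ms x → p.L 0 x := by
    push Not at hL'
    obtain ⟨x, hx, hxM, hx1⟩ := hL'
    have hζ : p.t⁻¹ * x (.inr ()) ∉ p.O := by
      intro h
      exact hx1 ((L_one p x).2 ⟨hxM.1, hxM.2.1, h⟩)
    have hζi := inv_mem p hxM.2.2 hζ
    have hζ0 : x (.inr ()) ≠ 0 := by
      intro h
      apply hζ
      rw [h, mul_zero]
      exact p.O.zero_mem
    have h1 := cross_mem p hSD' hx hx hxM.1 hxM.1
    have hξ : x (.inl (.inr ())) ∈ p.O := by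
      have h2 : x (.inl (.inr ())) * x (.inr ()) ∈ p.O := by
        apply half_mem p
        convert h1 using 1
        ring
      have := mul_mem h2 hζi
      rwa [mul_assoc, mul_inv_cancel₀ hζ0, mul_one] at this
    intro x' hx' hxM'
    have h3 := cross_mem p hSD' hx hx' hxM.1 hxM'.1
    have h4 := sub_mem h3 (mul_mem hξ hxM'.2.2)
    rw [add_sub_cancel_left] at h4
    have h5 := mul_mem hζi h4
    rw [← mul_assoc, inv_mul_cancel₀ hζ0, one_mul] at h5
    exact (L_zero p x').2 ⟨hxM'.1, h5, hxM'.2.2⟩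
  -- minimal exponent
  have hex : ∃ j : ℕ, p.Ms (p.t ^ j • b) := by
    obtain ⟨n, hn⟩ := exists_pow_all p b
    refine ⟨n, fun i => hn _, ?_, hn _⟩
    exact mul_mem p.t_mem (hn _)
  classical
  obtain ⟨j, hj, hmin⟩ : ∃ j, p.Ms (p.t ^ j • b) ∧ ∀ k < j, ¬ p.Ms (p.t ^ k • b) :=
    ⟨Nat.find hex, Nat.find_spec hex, fun k hk => Nat.find_min hex hk⟩
  have hyL : p.t ^ j • b ∈ L := smul_mem' p hSD (pow_mem p.t_mem j) hbL
  have hyL' : p.t ^ j • b ∈ L' := smul_mem' p hSD' (pow_mem p.t_mem j) hbL'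
  have hy1 := hL _ hyL hj
  have hy0 := hL0 _ hyL' hj
  rcases Nat.eq_zero_or_pos j with rfl | hjpos
  · simpa using And.intro hy0 hy1
  exfalso
  set y := p.t ^ j • b with hydef
  have hy1' := (L_one p y).1 hy1
  have hy0' := (L_zero p y).1 hy0
  have hnot := hmin (j - 1) (by omega)
  have hscale : ∀ k, (p.t ^ (j - 1) • b) k = p.t⁻¹ * y k := by
    intro k
    rw [hydef, Pi.smul_apply, Pi.smul_apply, smul_eq_mul, smul_eq_mul, ← mul_assoc]
    congr 1
    rw [← Nat.sub_add_cancel (Nat.one_le_iff_ne_zero.2 hjpos.ne'), pow_succ, Nat.add_sub_cancel]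
    field_simp
  obtain ⟨i0, hi0⟩ : ∃ i, p.t⁻¹ * y (.inl (.inl i)) ∉ p.O := by
    by_contra hcon
    push Not at hcon
    apply hnot
    refine ⟨fun i => ?_, ?_, ?_⟩
    · rw [hscale]; exact hcon i
    · rw [hscale, ← mul_assoc, mul_inv_cancel₀ ht, one_mul]
      exact hy0'.2.1
    · rw [hscale]; exact hy1'.2.2
  -- residues
  let ybar : Fin (r + 1) → κ := fun i => p.red ⟨y (.inl (.inl i)), hy0'.1 i⟩
  let ubar : Fin r → Fin (r + 1) → κ := fun k i =>
    p.red ⟨u k (.inl (.inl i)), ((L_zero p (u k)).1 (hu0 k)).1 i⟩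
  have key : ∀ (x z : SI r → K) (hx : p.L 0 x) (hx1 : p.L 1 x) (hz : p.L 0 z) (hz1 : p.L 1 z)
      (c : K) (hc : c ∈ p.O), sform x z = c →
      lor (fun i => p.red ⟨x (.inl (.inl i)), ((L_zero p x).1 hx).1 i⟩)
        (fun i => p.red ⟨z (.inl (.inl i)), ((L_zero p z).1 hz).1 i⟩) = p.red ⟨c, hc⟩ := by
    intro x z hx hx1 hz hz1 c hc hs
    have hx' := (L_zero p x).1 hx
    have hz' := (L_zero p z).1 hz
    have hx1' := (L_one p x).1 hx1
    have hz1' := (L_one p z).1 hz1
    have e1 : ∀ i : Fin (r + 1), (eta i : κ) = p.red ⟨eta i, eta_mem p i⟩ := by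
      intro i
      unfold eta
      split_ifs with h
      · have : (⟨-1, neg_mem p.O.one_mem⟩ : p.O) = -1 := rfl
        rw [this, map_neg, map_one]
      · exact (map_one p.red).symm
    have e2 : lor (fun i => p.red ⟨x (.inl (.inl i)), hx'.1 i⟩)
        (fun i => p.red ⟨z (.inl (.inl i)), hz'.1 i⟩) =
        p.red (∑ i : Fin (r + 1), (⟨eta i, eta_mem p i⟩ : p.O) *
          (⟨x (.inl (.inl i)), hx'.1 i⟩ * ⟨z (.inl (.inl i)), hz'.1 i⟩)) := by
      unfold lor
      rw [map_sum]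
      exact Finset.sum_congr rfl fun i _ => by rw [map_mul, map_mul, e1]
    rw [e2, ← sub_eq_zero, ← map_sub, p.red_ker]
    have e3 : (((∑ i : Fin (r + 1), (⟨eta i, eta_mem p i⟩ : p.O) *
          (⟨x (.inl (.inl i)), hx'.1 i⟩ * ⟨z (.inl (.inl i)), hz'.1 i⟩)) - ⟨c, hc⟩ : p.O) : K) =
        - (2 * (x (.inl (.inr ())) * z (.inr ()) + x (.inr ()) * z (.inl (.inr ())))) := by
      rw [AddSubgroupClass.coe_sub, AddSubmonoidClass.coe_finset_sum]
      simp only [MulMemClass.coe_mul]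
      rw [← hs]
      unfold sform
      ring
    rw [e3]
    have e4 : p.t⁻¹ * -(2 * (x (.inl (.inr ())) * z (.inr ()) + x (.inr ()) *
        z (.inl (.inr ())))) = -(2 * (x (.inl (.inr ())) * (p.t⁻¹ * z (.inr ())) +
        (p.t⁻¹ * x (.inr ())) * z (.inl (.inr ())))) := by ring
    rw [e4]
    have h2 : (2 : K) ∈ p.O := by
      have := p.alg 2
      rwa [map_ofNat] at this
    exact neg_mem (mul_mem h2 (add_mem (mul_mem hx'.2.1 hz1'.2.2) (mul_mem hx1'.2.2 hz'.2.1)))
  have hzero : ybar = 0 := by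
    refine residue_contra ybar ubar (p.rho.mapMatrix G) ?_ ?_ ?_ ?_
    · intro i k
      exact key (u i) (u k) (hu0 i) (hu1 i) (hu0 k) (hu1 k) _ (p.alg _) (hG i k)
    · rw [← RingHom.map_det]
      exact (map_ne_zero_iff _ p.rho.injective).2 hdet
    · intro i
      have := key y (u i) hy0 hy1 (hu0 i) (hu1 i) 0 p.O.zero_mem (by
        rw [hydef, sform_smul, hb, mul_zero])
      rw [show (⟨0, p.O.zero_mem⟩ : p.O) = 0 from rfl, map_zero] at this
      exact this
    · have hc : p.t ^ (2 * j) * algebraMap ℂ K (β : ℂ) ∈ p.O :=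
        mul_mem (pow_mem p.t_mem _) (p.alg _)
      have := key y y hy0 hy1 hy0 hy1 _ hc (by
        rw [hydef, sform_smul, sform_comm, sform_smul, hbb, two_mul, pow_add, mul_assoc])
      rw [show lor ybar ybar = _ from this, p.red_ker]
      show p.t⁻¹ * (p.t ^ (2 * j) * algebraMap ℂ K (β : ℂ)) ∈ p.O
      have h6 : p.t⁻¹ * (p.t ^ (2 * j) * algebraMap ℂ K (β : ℂ)) =
          p.t ^ (2 * j - 1) * algebraMap ℂ K (β : ℂ) := by
        rw [← mul_assoc]
        congr 1
        rw [show 2 * j = (2 * j - 1) + 1 by omega, pow_succ, Nat.add_sub_cancel]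
        field_simp
      rw [h6]
      exact mul_mem (pow_mem p.t_mem _) (p.alg _)
  have h7 := congrFun hzero i0
  exact hi0 ((p.red_ker _).1 h7)

end Pool.Agent.W377.Side
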